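import Pool.Agent.R955.FD.Defs

set_option autoImplicit false

namespace Pool.Agent.R842.FDSML

open MeasureTheory Set Filter Topology
open scoped ENNReal
open Pool.Agent.R955.FD

universe u

theorem t_SML (h : S_DEC.{u}) : S_SML.{u} := by
  intro X _ _ _ g A L p hg hp ε hε
  obtain ⟨C, hC, h1, h2⟩ := h X g A L hg
  rcases eq_or_ne p ∞ with rfl | hpt
  · refine ⟨ε / C, by positivity, ?_⟩
    intro a I hI hIa
    unfold nR
    rw [eLpNorm_exponent_top]
    refine eLpNormEssSup_le_of_ae_bound (Eventually.of_forall fun s => ?_)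
    have := h2 a (ε / C) I (by positivity) hI hIa s
    rwa [mul_div_cancel₀ _ hC.ne'] at this
  · have hp0 : p ≠ 0 := (zero_lt_one.trans hp).ne'
    have hr : 1 < p.toReal := by
      have := (ENNReal.toReal_lt_toReal (by norm_num) hpt).2 hp
      simpa using this
    set r := p.toReal with hrdef
    set δ := (r - 1) / 2 with hδ
    have hδ0 : 0 < δ := by rw [hδ]; linarith
    have hrd : 1 < r - δ := by rw [hδ]; linarith
    have hK : (∫⁻ s : ℝ, ENNReal.ofReal ((1 + ‖s‖) ^ (-(r - δ)))) < ∞ :=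
      finite_integral_one_add_norm (μ := (volume : Measure ℝ)) (by simpa using hrd)
    set K := ∫⁻ s : ℝ, ENNReal.ofReal ((1 + ‖s‖) ^ (-(r - δ))) with hKdef
    set M := (2 * C) ^ (r - δ) * K.toReal with hM
    have hM0 : 0 ≤ M := by positivity
    set κ := min 1 ((ε ^ r / (M + 1)) ^ (1 / δ) / C) with hκ
    have hκ0 : 0 < κ := by
      rw [hκ]; apply lt_min one_pos; positivity
    refine ⟨κ, hκ0, ?_⟩
    intro a I hI hIa
    have hb : ∀ s, ‖Ext g I s‖ ^ r ≤ ((C * κ) ^ δ * (2 * C) ^ (r - δ)) * (1 + ‖s‖) ^ (-(r - δ)) := by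
      intro s
      have b1 : ‖Ext g I s‖ ≤ C * κ := h2 a κ I hκ0.le hI hIa s
      have b2 : ‖Ext g I s‖ ≤ 2 * C / (1 + ‖s‖) := by
        have b3 := (h1 I hI).2.1 s
        rw [le_div_iff₀ (by positivity)]
        rcases le_total ‖s‖ 1 with hs | hs
        · calc ‖Ext g I s‖ * (1 + ‖s‖) ≤ C * 2 := by
                apply mul_le_mul b3 (by linarith) (by positivity) hC.le
            _ = 2 * C := by ring
        · have hs0 : s ≠ 0 := by
            intro h; rw [h] at hs; norm_num at hs
          have b4 := (h1 I hI).2.2 s hs0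
          rw [← Real.norm_eq_abs, le_div_iff₀ (by linarith)] at b4
          nlinarith [norm_nonneg (Ext g I s)]
      have b0 : 0 ≤ ‖Ext g I s‖ := norm_nonneg _
      calc ‖Ext g I s‖ ^ r = ‖Ext g I s‖ ^ (δ + (r - δ)) := by congr 1; ring
        _ = ‖Ext g I s‖ ^ δ * ‖Ext g I s‖ ^ (r - δ) := by
          rw [Real.rpow_add_of_nonneg b0 hδ0.le (by linarith)]
        _ ≤ (C * κ) ^ δ * (2 * C / (1 + ‖s‖)) ^ (r - δ) := by
          apply mul_le_mul
          · exact Real.rpow_le_rpow b0 b1 hδ0.le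
          · exact Real.rpow_le_rpow b0 b2 (by linarith)
          · positivity
          · positivity
        _ = _ := by
          rw [Real.div_rpow (by positivity) (by positivity), Real.rpow_neg (by positivity)]
          ring
    have hcon : (C * κ) ^ δ * M ≤ ε ^ r := by
      have c1 : C * κ ≤ (ε ^ r / (M + 1)) ^ (1 / δ) := by
        have : κ ≤ (ε ^ r / (M + 1)) ^ (1 / δ) / C := min_le_right _ _
        rw [le_div_iff₀ hC] at this
        linarith
      have c2 : (C * κ) ^ δ ≤ ε ^ r / (M + 1) := by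
        have c3 := Real.rpow_le_rpow (by positivity) c1 hδ0.le
        rwa [← Real.rpow_mul (by positivity), one_div, inv_mul_cancel₀ hδ0.ne', Real.rpow_one] at c3
      calc (C * κ) ^ δ * M ≤ ε ^ r / (M + 1) * M := by gcongr
        _ ≤ ε ^ r / (M + 1) * (M + 1) := by gcongr; linarith
        _ = ε ^ r := by field_simp
    have hint : ∫⁻ s, ‖Ext g I s‖ₑ ^ r ≤ ENNReal.ofReal (ε ^ r) := by
      calc ∫⁻ s, ‖Ext g I s‖ₑ ^ r ≤ ∫⁻ s, ENNReal.ofReal ((C * κ) ^ δ * (2 * C) ^ (r - δ)) *
            ENNReal.ofReal ((1 + ‖s‖) ^ (-(r - δ))) := by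
            apply lintegral_mono
            intro s
            show ‖Ext g I s‖ₑ ^ r ≤ ENNReal.ofReal ((C * κ) ^ δ * (2 * C) ^ (r - δ)) *
              ENNReal.ofReal ((1 + ‖s‖) ^ (-(r - δ)))
            rw [← ENNReal.ofReal_mul (by positivity), ← ofReal_norm,
              ENNReal.ofReal_rpow_of_nonneg (norm_nonneg _) (by linarith)]
            exact ENNReal.ofReal_le_ofReal (hb s)
        _ = ENNReal.ofReal ((C * κ) ^ δ * (2 * C) ^ (r - δ)) * K := by
            exact lintegral_const_mul' _ _ ENNReal.ofReal_ne_top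
        _ = ENNReal.ofReal ((C * κ) ^ δ * M) := by
            rw [← ENNReal.ofReal_toReal hK.ne, ← ENNReal.ofReal_mul (by positivity), hM]
            congr 1; ring
        _ ≤ _ := ENNReal.ofReal_le_ofReal hcon
    unfold nR
    rw [eLpNorm_eq_lintegral_rpow_enorm_toReal hp0 hpt]
    calc (∫⁻ s, ‖Ext g I s‖ₑ ^ p.toReal) ^ (1 / p.toReal)
        ≤ (ENNReal.ofReal (ε ^ r)) ^ (1 / p.toReal) := by
          apply ENNReal.rpow_le_rpow hint
          positivity
      _ = ENNReal.ofReal ε := by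
          rw [ENNReal.ofReal_rpow_of_nonneg (by positivity) (by positivity), ← Real.rpow_mul hε.le]
          congr 1
          rw [← hrdef, mul_one_div_cancel (by linarith), Real.rpow_one]

end Pool.Agent.R842.FDSML
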